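import Pool.Agent.W2helper26.PR.Asm
import Pool.Agent.W2helper12.PR.Levr
import Pool.Agent.W2helper17.PR.Gamc
import Pool.Agent.W2helper24.PR.Decs

/-!
# A few planted bits give short proofs of the finite reflection sentences

Definitions (in `Pool.Agent.W2helper61.RF.Syn`, as in the result `ShortReflection` on this problem):
`Fm` are the formulas of Buss's bounded arithmetic with one more relation symbol `α`, `Base A` are the
axioms of `S^1_2` relative to the oracle `A`, `PfOf A S φ π` says that `π` is a Hilbert-style proof of
`φ` from `Base A` and `S`, `encPf π` is its string, `InT A S` says that the theory is in the class `𝒯`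
relative to `A`, `Cons A T` that the theory with the axioms `T` is consistent, `Sound A T μ F` says that
the bounded formula `F` holds for `e, x, z, u` only if `μ(e, x, z)` has a proof in the theory `T` (so
`F` may be any formalisation of `u is a proof of μ(e, x, z)`), and `rfn F μ n` is the reflection
sentence. `PolyTime g`: the function `g` is computed by a Turing machine (without oracle) in polynomial
time. The classes relative to an oracle are the ones of `Pool.Agent.H620R2.Gauge.Defs` (`IsP`),
`Pool.Agent.H620R2.Gauge2.Defs` (`IsNP`, `WithAdvice`) and `Pool.Agent.W2helper58.BR.Cls` (`IsUP`);
`Null` is in `Pool.Agent.H620R2.Gauge.Defs`.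

Idea of the proof. In a random oracle only the bits at certain strings are changed, at most
`ε log log log N` of the first `N` bits. The changed oracle `A` says for each pair of bounded formulas
`F`, `μ` whether all reflection sentences for `F`, `μ` and the numbers `n ≤ ℓ` are true relative to `A`
(and to all oracles which agree with `A` at the short strings), where `ℓ` is in a sequence in which each
member is a large fixed power of the one before. The power grows quickly with the pair, so that
the truth of these sentences only depends on the oracle at shorter strings than the changed string: this
is a recursive definition. The set of the (padded) reflection sentences confirmed in this way is a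
theory in `𝒯`. For a consistent theory the reflection sentences are true, so they are confirmed and
have proofs of three lines. A forger argument shows that so few changed bits do not help to find
the unique witnesses which a random oracle gives for infinitely many lengths, so `P ≠ UP`; and the set of
the oracles relative to which `NP` is contained in `coNP` with advice is null for these gauges.
-/

set_option autoImplicit false

namespace Pool.Agent.Results.MP_5c38ab_lc.FewPlantedBits

open Filter Pool.Agent.NPC Pool.Agent.H620R2.Gauge Pool.Agent.W2helper61.RF
open Pool.Agent.W2helper58.BR (IsUP)

theorem result (f : ℕ → ℝ) (ε : ℝ) (hε : 0 < ε)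
    (hf : ∀ᶠ N : ℕ in atTop, ε * Real.logb 2 (Real.logb 2 (Real.logb 2 N)) ≤ f N) :
    ¬ Null f {A : Oracle |
      -- some theory in the class `𝒯` has, for every theory in `𝒯` (and even for every consistent
      -- theory) `T` and every bounded formula `μ`, proofs of polynomial length of the finite
      -- reflection sentences for `T` and `μ`; these proofs are even computed in polynomial time
      (∃ S : Set Fm, InT A S ∧ ∀ μ : Fm, Bdd μ → μ.Below 3 → ∀ T : Set Fm, Cons A T →
        ∀ F : Fm, Sound A T μ F → ∃ (g : List Bool → List Bool) (p : Polynomial ℕ), PolyTime g ∧
          ∀ n : ℕ, ∃ π : List Fm, PfOf A S (rfn F μ n) π ∧ (encPf π).length ≤ p.eval n ∧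
            g (List.replicate n true) = encPf π) ∧
      -- `P` is not `UP`
      (∃ L, IsUP A L ∧ ¬ IsP A L) ∧
      -- `NP` is not contained in `coNP` with polynomial advice
      ∃ L, IsNP A L ∧ ¬ WithAdvice (IsNP A) Lᶜ} := by
  intro h
  refine Pool.Agent.W2helper26.PR.main Pool.Agent.W2helper17.PR.p_gamc
    Pool.Agent.W2helper24.PR.p_decs Pool.Agent.W2helper12.PR.p_levr f ε hε hf (h.mono ?_)
  rintro A ⟨⟨h1, h2⟩, h3⟩
  exact ⟨h1, h2, h3⟩

end Pool.Agent.Results.MP_5c38ab_lc.FewPlantedBits
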