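import Pool.Agent.W2helper61.PF.Fin2
import Pool.Agent.W2helper61.PF.Tch
import Pool.Agent.W2helper54.PF.CEL
import Pool.Agent.W2helper60.PF.Crt
import Pool.Agent.W2helper69.PF.Lex
import Pool.Agent.W2helper93.PF.Sub
import Pool.Agent.W2helper98.PF.Cnt
import Pool.Agent.W2helper99.PF.Ref

/-!
# Q1 holds relative to an oracle relative to which its listed sufficient condition fails

Definitions (in `Pool.Agent.W2helper61.RF.Syn`): `Fm` are the formulas of Buss's bounded arithmetic
with one more relation symbol `α`, `nat O` is the standard structure in which `α` says that the
oracle `O` answers `1`, `Base O` are the axioms of `S^1_2` relative to `O`, `PfOf O S φ π` says that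
`π` is a Hilbert-style proof of `φ` from `Base O` and `S`, `InT O S` says that the theory is in the
class `𝒯` relative to `O`, `Cons O A` that the theory with the axioms `A` is consistent (has a
model), `SB true F` that `F` is a `Σ^b_1` formula, and `rfn F μ n` is the reflection sentence for
the formalisation `F` of the proof predicate. In `Pool.Agent.W2helper61.PF`: `con F n` is the sentence
`∀ u (|u| ≤ n → ¬ F(u))`, which is the finite consistency sentence if `F(u)` says that `u` is a
proof of a contradiction. `Univ μ` says that `μ` is a universal `Σ^b_1` formula. `Form D T μ F` says
that `F(e, x, z, u)` is a bounded formula which is true whenever `u` is the code of a proof of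
`μ(e, x, z)` from `Base O'` and `T`, relative to all oracles `O'` with the static part `D`.

Relative to the oracle of the theorem
* some theory `S` in `𝒯` has, for every `T` in `𝒯`, proofs of polynomial length of the finite
  consistency sentences of `T`, so the sufficient condition for Q1 which is listed in the problem
  file fails; these proofs are even computed in polynomial time (by a machine without oracle), so
  the weaker uniform version of the condition fails, too;
* Q1 holds, with an exponential bound: for every `S` in `𝒯` there is `T` in `𝒯` such that the
  `S`-proofs of the reflection sentences of `T` for the universal `Σ^b_1` formula and for `n` have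
  length at least `2 ^ (n ^ (1 / k) - 1)` for infinitely many `n`, where `k` is a constant.

Idea of the proof. The oracle has a column of claims, which tells the truth of all heavily padded
sentences `∀ u (|u| ≤ n → ¬ F(u))` with `F` in `Σ^b_1` (there are only polynomially many of them of
every length), and a free column. For every theory `S` (given by its decision algorithm) there is a
block of rows, one row for every number `x`; the theory `T` says that all rows are not empty, which
is a statement of the form `∀ x ∃ w`. Suppose that some legal oracle (all rows not empty) has a short
`S`-proof of a reflection sentence for `T`. The values of the relevant claims are made independent of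
the rows by a greedy choice of the free column: a claim is made false if this is possible. Then one
row which does not matter for the proof and for the claims can be emptied; the `S`-proof is still
correct, but the reflection sentence is false, and so `S` is inconsistent relative to the new oracle.
(If emptying the row makes a claim false, then this depends on few places of the row only, so the
claim would be false for a legal oracle, too.)
-/

set_option autoImplicit false

namespace Pool.Agent.Results.MP_5c38ab_lc.ReflectionWithoutConsistency

open Pool.Agent.NPC Pool.Agent.H620R2.Gauge Pool.Agent.W2helper61.RF Pool.Agent.W2helper61.PF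

/-- There is an oracle `O` relative to which (1) some theory `S` in `𝒯` has, for every consistent
theory `A` and every `Σ^b_1` formula `F(u)` which is true only if `A` proves a contradiction, proofs
of polynomial length of the sentences `∀ u (|u| ≤ n → ¬ F(u))`, which are computed in polynomial time
(without oracle), and (2) for every universal `Σ^b_1`
formula `μ` and every `S` in `𝒯` there are `T` in `𝒯` and `k` such that for every formalisation `F` of
the proof predicate of `T` and infinitely many `n` every `S`-proof of the reflection sentence for `T`,
`μ` and `n` has a length `ℓ` with `n < (log₂ ℓ + 1) ^ k`. -/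
theorem result : ∃ O : Oracle,
    (∃ S : Set Fm, InT O S ∧ ∀ A : Set Fm, Cons O A → ∀ F : Fm, SB true F → F.Below 1 →
      (∀ u : ℕ, F.sat (nat O) (env [u]) → ∃ π : List Fm, PfOf O A .bot π) →
      ∃ (f : List Bool → List Bool) (p : Polynomial ℕ), PolyTime f ∧ ∀ n : ℕ, ∃ π : List Fm,
        PfOf O S (con F n) π ∧ (encPf π).length ≤ p.eval n ∧
        f (List.replicate n true) = encPf π) ∧
    ∀ μ : Fm, Univ μ → ∀ S : Set Fm, InT O S → ∃ T : Set Fm, InT O T ∧ ∃ k : ℕ,
      ∀ F : Fm, Form (fun y => O (false :: true :: y)) T μ F → ∀ N : ℕ, ∃ n, N ≤ n ∧
        ∀ π : List Fm, PfOf O S (rfn F μ n) π → n < (Nat.log 2 (encPf π).length + 1) ^ k :=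
  main Pool.Agent.W2helper69.PF.LEX_ok Pool.Agent.W2helper61.PF.TCH_ok
    Pool.Agent.W2helper60.PF.CRT_ok Pool.Agent.W2helper98.PF.CNT_ok
    Pool.Agent.W2helper93.PF.SUB_ok Pool.Agent.W2helper54.PF.CEL2_ok
    Pool.Agent.W2helper99.PF.REF_ok

end Pool.Agent.Results.MP_5c38ab_lc.ReflectionWithoutConsistency
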