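import Pool.Agent.W2helper61.RF.Fin

/-!
# Short proofs of the finite reflection sentences, with an infinite hierarchy on tally sets

Definitions (in `Pool.Agent.W2helper61.RF.Syn`): `Fm` are the formulas of Buss's bounded arithmetic
with one more relation symbol `α`, `nat O` is the standard structure in which `α` says that the
oracle `O` answers `1`, `Base O` are the axioms of `S^1_2` relative to `O`, `PfOf O S φ π` says that
`π` is a Hilbert-style proof of `φ` from `Base O` and `S`, `InT O S` says that the theory is in the
class `𝒯` relative to `O`, `Cons O A` that the theory with the axioms `A` is consistent,
`Sound O A μ F` says that the bounded formula `F` holds for `e, x, z, u` only if `μ(e, x, z)` has a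
proof in the theory `A` (so `F` may be any formalisation of `u is a proof of μ(e, x, z)`), and
`rfn F μ n` is the reflection sentence. `IsSig O k L` says that the language `L` is in the level
`Σ_k` of the polynomial hierarchy relative to `O`, `PolyTime f` that the function `f` is computed by
a Turing machine (without oracle) in polynomial time.

Idea of the proof. The oracle has two columns. The second column is a column of claims: a string
codes a (padded) reflection sentence for bounded formulas `F` and `μ` and a number `n`, and the
column says that this sentence is true. The padding guarantees that the truth of the sentence only
depends on the oracle at shorter strings. The claims are true, so the set `S` of the claimed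
sentences is in `P` relative to the oracle and has the standard model. The oracle is built in stages:
for every pair `F`, `μ` in turn either some false reflection sentence is forced by a finite part of
the oracle, or all of them are true for all oracles still possible, and then all claims for `F` and
`μ` are made from now on. In the second case the value of the column of claims is explicit, and
random restrictions (Håstad's switching lemma), applied to the first column, separate the levels of
the hierarchy by tally languages: `2048` trees of NOR gates suffice, and the tally input codes the
sizes of the tree and its number. Finally for a consistent theory the reflection sentences are true,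
because bounded formulas are absolute between the standard structure and the models of the axioms
BASIC; so they are claimed, and the proof in `S` consists of three lines.
-/

set_option autoImplicit false

namespace Pool.Agent.Results.MP_5c38ab_lc.ShortReflection

open Pool.Agent.NPC Pool.Agent.H620R2.Gauge Pool.Agent.H591R3.PHG Pool.Agent.W2helper61.RF

/-- There is an oracle `O` relative to which for every `k` some tally language is in `Σ_{k+1}` but
neither in `Σ_k` nor in `Π_k` (so the polynomial hierarchy is infinite), and some theory `S` in the
class `𝒯` has, for every theory `A` in `𝒯` (and even for every consistent theory `A`) and every
bounded formula `μ`, proofs of polynomial length of the finite reflection sentences for `A` and `μ`;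
these proofs are even computed in polynomial time. -/
theorem result : ∃ O : Oracle,
    (∀ k : ℕ, ∃ L : Set (List Bool), (∀ x ∈ L, x = List.replicate x.length true) ∧
      IsSig O (k + 1) L ∧ ¬ IsSig O k L ∧ ¬ IsSig O k Lᶜ) ∧
    ∃ S : Set Fm, InT O S ∧ ∀ μ : Fm, Bdd μ → μ.Below 3 → ∀ A : Set Fm, Cons O A →
      ∀ F : Fm, Sound O A μ F → ∃ (f : List Bool → List Bool) (p : Polynomial ℕ), PolyTime f ∧
        ∀ n : ℕ, ∃ π : List Fm, PfOf O S (rfn F μ n) π ∧ (encPf π).length ≤ p.eval n ∧
          f (List.replicate n true) = encPf π := main

end Pool.Agent.Results.MP_5c38ab_lc.ShortReflection
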